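import Pool.Agent.Lib.MP_c82047_co80.Glue

/-!
# Brown-Erdos-Sos for a window of orders, density one twelfth

A linear triple system on `n` points in which no set `S` of `k` to `2k - 1` points contains
`|S| - 3` or more triples has at most `n² / 12 + (13/6) k n` triples.

Idea. After deleting `O(k n)` triples every triple `E` lies in a block `blk E` (a maximal small set
with `|S| - 2` triples), and the pairs `(E, x)`, `x` outside `blk E`, are partitioned by the planes
(the maximal small sets with `|S| - 3` triples). In every plane the average number of points of `E`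
which are joined to `x` is at most `3/2` (`plane_ineq`: Turan's theorem for the intersection graph
of the triples, with a separate treatment of large stars). Summing over all planes, three halves
bound the average of the sum of the degrees of the points of a triple, divided by `n / 2`, and the
theorem follows from the Cauchy-Schwarz inequality.
-/

set_option autoImplicit false

namespace Pool.Agent.MPc82047h80

open Finset Pool.Agent.Lib.MP_c82047_co97

/-- **Theorem.** Let `k ≥ 5` and let `H` be a linear triple system on `n` points such that no set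
of at least `k` and fewer than `2k` points contains `|S| - 3` or more triples of `H`. Then
`|H| ≤ n² / 12 + (13/6) k n`. -/
theorem family_density (k n : ℕ) (hk : 5 ≤ k) (H : Finset (Finset (Fin n)))
    (h3 : ∀ E ∈ H, E.card = 3) (hlin : ∀ E ∈ H, ∀ F ∈ H, E ≠ F → (E ∩ F).card ≤ 1)
    (hfree : ∀ S : Finset (Fin n), k ≤ S.card → S.card < 2 * k →
      (H.filter (fun E => E ⊆ S)).card < S.card - 3) :
    12 * H.card ≤ n ^ 2 + 26 * k * n := by
  have hH : Lin H := ⟨h3, hlin⟩
  have hfree' : ∀ S : Finset (Fin n), k ≤ S.card → S.card < 2 * k → e H S + 4 ≤ S.card := by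
    intro S h1 h2
    have := hfree S h1 h2
    unfold e
    omega
  obtain ⟨K, hKH, hG2, hdel⟩ := cleaning hH hk hfree'
  have hK : Lin K := hH.mono hKH
  obtain ⟨blk, hb, -, hsum⟩ := exists_blocks hK hk (fun S h1 h2 => by
    have := hfree' S h1 h2
    have := e_mono_left hKH S
    omega) hG2
  have hmain := hsum (fun E x => 3 - 2 * (jj K E x : ℤ)) (fun P hP => plane_sum hK hP)
  rw [Fintype.card_fin] at hdel
  -- the sum of the degrees of the points of a line
  have h1 : ∀ E ∈ K, ∑ x : Fin n, jj K E x = ∑ a ∈ E, 2 * deg K a := by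
    intro E hE
    simp only [jj, card_filter]
    rw [sum_comm]
    apply sum_congr rfl
    intro a _
    rw [← adj_card hK a, card_filter]
  have h2 : ∀ E ∈ K, ∑ x : Fin n, jj K E x ≤ ∑ x ∈ (blk E)ᶜ, jj K E x + 3 * k := by
    intro E hE
    rw [← sum_compl_add_sum (blk E)]
    gcongr
    calc _ ≤ ∑ _x ∈ blk E, 3 := sum_le_sum (fun x _ => jj_le_three (h3 E (hKH hE)) x)
      _ = (blk E).card * 3 := by rw [sum_const, smul_eq_mul]
      _ ≤ _ := by have := (hb E hE).2.1; omega
  have h4 : ∑ E ∈ K, ∑ a ∈ E, 2 * deg K a = ∑ a : Fin n, 2 * deg K a ^ 2 := by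
    have : ∀ E ∈ K, ∑ a ∈ E, 2 * deg K a = ∑ a : Fin n, if a ∈ E then 2 * deg K a else 0 := by
      intro E _
      rw [← sum_filter]
      congr 1
      ext a
      simp
    rw [sum_congr rfl this, sum_comm]
    apply sum_congr rfl
    intro a _
    rw [← sum_filter, sum_const, smul_eq_mul, deg]
    ring
  have h5 : (∑ a : Fin n, deg K a) ^ 2 ≤ n * ∑ a : Fin n, deg K a ^ 2 := by
    have := sq_sum_le_card_mul_sum_sq (s := (univ : Finset (Fin n))) (f := fun a => deg K a)
    rwa [card_univ, Fintype.card_fin] at this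
  rw [sum_deg hK.1] at h5
  have h6 : 2 * ∑ E ∈ K, ∑ x ∈ (blk E)ᶜ, jj K E x ≤ 3 * (K.card * n) := by
    have h7 : ∑ E ∈ K, ∑ x ∈ (blk E)ᶜ, (3 - 2 * (jj K E x : ℤ))
        = 3 * ∑ E ∈ K, (((blk E)ᶜ).card : ℤ) - 2 * ∑ E ∈ K, ∑ x ∈ (blk E)ᶜ, (jj K E x : ℤ) := by
      rw [mul_sum, mul_sum, ← sum_sub_distrib]
      apply sum_congr rfl
      intro E _
      rw [sum_sub_distrib, sum_const, mul_sum, nsmul_eq_mul]
      ring
    have h8 : ∑ E ∈ K, (((blk E)ᶜ).card : ℤ) ≤ K.card * n := by
      calc _ ≤ ∑ _E ∈ K, (n : ℤ) := by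
            apply sum_le_sum
            intro E _
            have := card_le_univ ((blk E)ᶜ)
            rw [Fintype.card_fin] at this
            exact_mod_cast this
        _ = _ := by rw [sum_const, nsmul_eq_mul]
    rw [h7] at hmain
    zify
    linarith
  have h7 : ∑ a : Fin n, 2 * deg K a ^ 2 ≤ ∑ E ∈ K, ∑ x ∈ (blk E)ᶜ, jj K E x + K.card * (3 * k) := by
    rw [← h4]
    calc _ = ∑ E ∈ K, ∑ x : Fin n, jj K E x := (sum_congr rfl h1).symm
      _ ≤ ∑ E ∈ K, (∑ x ∈ (blk E)ᶜ, jj K E x + 3 * k) := sum_le_sum h2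
      _ = _ := by rw [sum_add_distrib, sum_const, smul_eq_mul]
  rw [← mul_sum] at h7
  -- 36 |K|² ≤ 3 |K| n² + 6 k n |K|
  have h8 : 12 * K.card ≤ n ^ 2 + 2 * k * n := by
    rcases Nat.eq_zero_or_pos K.card with h0 | h0
    · rw [h0]; simp
    have h9 : K.card * (12 * K.card) ≤ K.card * (n ^ 2 + 2 * k * n) := by
      have h10 : 4 * (n * ∑ a : Fin n, deg K a ^ 2) ≤ n * (3 * (K.card * n) + 2 * (K.card * (3 * k))) := by
        have : 4 * ∑ a : Fin n, deg K a ^ 2 ≤ 3 * (K.card * n) + 2 * (K.card * (3 * k)) := by omega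
        nlinarith
      nlinarith
    exact Nat.le_of_mul_le_mul_left h9 h0
  have h9 : H.card = K.card + (H \ K).card := by
    have := card_sdiff_add_card_eq_card hKH
    omega
  nlinarith

end Pool.Agent.MPc82047h80
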