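import Pool.Agent.Lib.MP_c82047_co97.Blocks
import Pool.Agent.Lib.MP_c82047_co80.Plane

/-!
# The plane inequality for the planes of a linear triple system
-/

set_option autoImplicit false

namespace Pool.Agent.MPc82047h80

open Finset Pool.Agent.Lib.MP_c82047_co97

variable {V : Type*} [DecidableEq V]

/-- A plane in the sense of `PlaneData` is a plane in the sense of `IsPlane`. -/
theorem isPlane_of_data {K : Finset (Finset V)} (hK : Lin K) {k : ℕ} {blk : Finset V → Finset V}
    {P : Finset V} (h : PlaneData K k blk P) : IsPlane P (K.filter (fun E => E ⊆ P)) blk where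
  card3 := fun E hE => hK.1 E (mem_filter.1 hE).1
  lin := fun E hE F hF => hK.2 E (mem_filter.1 hE).1 F (mem_filter.1 hF).1
  blkP := fun E hE => (h.blk_sub E (mem_filter.1 hE).1 (mem_filter.1 hE).2).2
  mem := fun E hE => (h.blk_sub E (mem_filter.1 hE).1 (mem_filter.1 hE).2).1
  blkcard := fun E hE => by
    rw [mem_filter] at hE
    have h1 : (K.filter (fun E => E ⊆ P)).filter (fun F => blk F = blk E)
        = K.filter (fun F => F ⊆ blk E) := by
      ext F
      simp only [mem_filter]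
      constructor
      · rintro ⟨⟨hF, hFP⟩, hb⟩
        exact ⟨hF, hb ▸ (h.blk_sub F hF hFP).1⟩
      · rintro ⟨hF, hFb⟩
        have hFP := hFb.trans (h.blk_sub E hE.1 hE.2).2
        refine ⟨⟨hF, hFP⟩, h.blk_eq F hF E hE.1 hFP hE.2 ?_⟩
        have h2 := card_le_card (subset_inter (h.blk_sub F hF hFP).1 hFb)
        rw [hK.1 F hF] at h2
        omega
    rw [h1]
    exact h.blk_card E hE.1 hE.2
  inter := fun E hE F hF hne => by
    rw [mem_filter] at hE hF
    by_contra hcon
    exact hne (h.blk_eq E hE.1 F hF.1 hE.2 hF.2 (by omega))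
  tight := h.card_eq
  sparse := fun S hS hE hc => by
    obtain ⟨E, hE, hES⟩ := hE
    refine ⟨E, hE, fun x hx => ?_⟩
    by_contra hxE
    rw [mem_filter] at hE
    have h1 := h.sparse3 E hE.1 x (hS hx) hE.2 hxE S hES hx hS
    have h2 : (K.filter (fun E => E ⊆ P)).filter (fun F => F ⊆ S) = K.filter (fun F => F ⊆ S) := by
      ext F
      simp only [mem_filter]
      exact ⟨fun h => ⟨h.1.1, h.2⟩, fun h => ⟨⟨h.1, h.2.trans hS⟩, h.2⟩⟩
    rw [h2] at hc
    unfold e at h1
    omega
  cont := fun E hE F hF hFE => by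
    rw [mem_filter] at hE hF
    refine h.blk_eq F hF.1 E hE.1 hF.2 hE.2 ?_
    have h2 := card_le_card (subset_inter (h.blk_sub F hF.1 hF.2).1 hFE)
    rw [hK.1 F hF.1] at h2
    omega

theorem adj_card {K : Finset (Finset V)} (hK : Lin K) [Fintype V] (a : V) :
    (univ.filter (fun x => Adj K x a)).card = 2 * deg K a := by
  have h1 : univ.filter (fun x => Adj K x a)
      = (K.filter (fun E => a ∈ E)).biUnion (fun E => E.erase a) := by
    ext x
    simp only [mem_filter, mem_univ, true_and, mem_biUnion, mem_erase]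
    constructor
    · rintro ⟨hne, E, hE, hx, ha⟩
      exact ⟨E, ⟨hE, ha⟩, hne, hx⟩
    · rintro ⟨E, ⟨hE, ha⟩, hne, hx⟩
      exact ⟨hne, E, hE, hx, ha⟩
  rw [h1, card_biUnion]
  · rw [sum_congr rfl (fun E hE => by
      rw [card_erase_of_mem (mem_filter.1 hE).2, hK.1 E (mem_filter.1 hE).1])]
    simp [deg, mul_comm]
  · intro A hA C hC hne
    have hA' := mem_filter.1 (mem_coe.1 hA)
    have hC' := mem_filter.1 (mem_coe.1 hC)
    rw [Function.onFun, disjoint_left]
    intro y hyA hyC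
    rw [mem_erase] at hyA hyC
    have h2 := hK.2 A hA'.1 C hC'.1 hne
    rw [card_le_one] at h2
    exact hyA.1 (h2 y (mem_inter.2 ⟨hyA.2, hyC.2⟩) a (mem_inter.2 ⟨hA'.2, hC'.2⟩))

/-- The number of adjacent pairs between `E` and the part of a plane outside `blk E`. -/
theorem sum_jj_plane {K : Finset (Finset V)} (hK : Lin K) {k : ℕ} {blk : Finset V → Finset V}
    {P : Finset V} (h : PlaneData K k blk P) {E : Finset V} (hE : E ∈ K) (hEP : E ⊆ P) :
    ∑ x ∈ P \ blk E, jj K E x ≤
      2 * ((K.filter (fun E => E ⊆ P)).filter (fun F => blk F ≠ blk E ∧ (F ∩ E).Nonempty)).card := by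
  set L := K.filter (fun E => E ⊆ P) with hL
  set R := L.filter (fun F => blk F ≠ blk E ∧ (F ∩ E).Nonempty) with hR
  -- pairs (x, a)
  have h1 : ∑ x ∈ P \ blk E, jj K E x
      = (((P \ blk E) ×ˢ E).filter (fun p => Adj K p.1 p.2)).card := by
    rw [card_filter, sum_product]
    apply sum_congr rfl
    intro x _
    rw [jj, card_filter]
  -- every such pair comes from a line of R
  have h2 : ((P \ blk E) ×ˢ E).filter (fun p => Adj K p.1 p.2)
      ⊆ R.biUnion (fun F => (F \ E) ×ˢ (F ∩ E)) := by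
    rintro ⟨x, a⟩ hp
    simp only [mem_filter, mem_product, mem_sdiff] at hp
    obtain ⟨⟨⟨hxP, hxb⟩, haE⟩, hne, F, hF, hxF, haF⟩ := hp
    have hFP : F ⊆ P := h.closed F hF (by
      have : ({x, a} : Finset V) ⊆ F ∩ P := by
        intro y hy
        rw [mem_insert, mem_singleton] at hy
        rcases hy with rfl | rfl
        · exact mem_inter.2 ⟨hxF, hxP⟩
        · exact mem_inter.2 ⟨haF, hEP haE⟩
      have h3 := card_le_card this
      rwa [card_pair hne] at h3)
    have hxE : x ∉ E := fun hx => hxb ((h.blk_sub E hE hEP).1 hx)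
    refine mem_biUnion.2 ⟨F, ?_, mem_product.2 ⟨mem_sdiff.2 ⟨hxF, hxE⟩, mem_inter.2 ⟨haF, haE⟩⟩⟩
    refine mem_filter.2 ⟨mem_filter.2 ⟨hF, hFP⟩, fun hb => ?_, ⟨a, mem_inter.2 ⟨haF, haE⟩⟩⟩
    exact hxb (hb ▸ (h.blk_sub F hF hFP).1 hxF)
  rw [h1]
  calc _ ≤ _ := card_le_card h2
    _ ≤ ∑ F ∈ R, ((F \ E) ×ˢ (F ∩ E)).card := card_biUnion_le
    _ ≤ ∑ _F ∈ R, 2 := by
        apply sum_le_sum
        intro F hF
        obtain ⟨hF1, hF2, hF3⟩ := mem_filter.1 hF
        have hFK := (mem_filter.1 hF1).1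
        have hne : F ≠ E := fun hc => hF2 (by rw [hc])
        have h4 := hK.2 F hFK E hE hne
        have h5 : 0 < (F ∩ E).card := card_pos.2 hF3
        have h6 := card_sdiff_add_card_inter F E
        rw [hK.1 F hFK] at h6
        rw [card_product]
        have h7 : (F ∩ E).card = 1 := by omega
        rw [h7]
        omega
    _ = 2 * R.card := by rw [sum_const, smul_eq_mul, mul_comm]

theorem plane_sum {K : Finset (Finset V)} (hK : Lin K) {k : ℕ} {blk : Finset V → Finset V}
    {P : Finset V} (h : PlaneData K k blk P) :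
    0 ≤ ∑ E ∈ K.filter (fun E => E ⊆ P), ∑ x ∈ P \ blk E, (3 - 2 * (jj K E x : ℤ)) := by
  have hp := isPlane_of_data hK h
  have h1 := plane_ineq hp
  set L := K.filter (fun E => E ⊆ P) with hL
  have h2 : ∀ E ∈ L, (P \ blk E).card = (L.filter (fun F => blk F ≠ blk E)).card + 1 := by
    intro E hE
    have h3 := card_sdiff_add_card_eq_card (hp.blkP E hE)
    have h4 := hp.blkcard E hE
    have h5 := hp.tight
    have h6 : (L.filter (fun F => blk F = blk E)).card + (L.filter (fun F => ¬ blk F = blk E)).card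
        = L.card := card_filter_add_card_filter_not _
    change _ + (L.filter (fun F => blk F ≠ blk E)).card = _ at h6
    omega
  have h3 : ∑ E ∈ L, ∑ x ∈ P \ blk E, (3 - 2 * (jj K E x : ℤ))
      = 3 * ∑ E ∈ L, ((P \ blk E).card : ℤ) - 2 * ∑ E ∈ L, ∑ x ∈ P \ blk E, (jj K E x : ℤ) := by
    rw [mul_sum, mul_sum, ← sum_sub_distrib]
    apply sum_congr rfl
    intro E _
    rw [sum_sub_distrib, sum_const, mul_sum, nsmul_eq_mul]
    ring
  have h4 : ∑ E ∈ L, ∑ x ∈ P \ blk E, jj K E x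
      ≤ 2 * ∑ E ∈ L, (L.filter (fun F => blk F ≠ blk E ∧ (F ∩ E).Nonempty)).card := by
    rw [mul_sum]
    apply sum_le_sum
    intro E hE
    exact sum_jj_plane hK h (mem_filter.1 hE).1 (mem_filter.1 hE).2
  rw [← sum_congr rfl h2] at h1
  rw [h3]
  have h5 : 2 * ∑ E ∈ L, ∑ x ∈ P \ blk E, jj K E x ≤ 3 * ∑ E ∈ L, (P \ blk E).card := by omega
  have h6 : 2 * ∑ E ∈ L, ∑ x ∈ P \ blk E, (jj K E x : ℤ) ≤ 3 * ∑ E ∈ L, ((P \ blk E).card : ℤ) := by
    exact_mod_cast h5
  linarith

end Pool.Agent.MPc82047h80
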