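import Pool.Agent.Lib.MP_c82047_co80.Turan

/-!
# Intersecting pairs in a sparse linear triple system

`ip_stable`: in a linear triple system in which any `s ≥ 2` lines cover at least `s + 3` points, the
number of ordered pairs of intersecting lines is at most `89/120` of the square of the number of
lines, unless there are four pairwise intersecting lines and no other line, or some point is on more
than five sixths of the lines.
-/

set_option autoImplicit false

namespace Pool.Agent.MPc82047h80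

open Finset

variable {V : Type*} [DecidableEq V]

/-- the number of lines through `v` -/
def dg (F : Finset (Finset V)) (v : V) : ℕ := (F.filter (fun A => v ∈ A)).card

theorem sum_swap (F : Finset (Finset V)) (g : V → ℕ) :
    ∑ A ∈ F, ∑ v ∈ A, g v = ∑ v ∈ F.biUnion id, dg F v * g v := by
  have h1 : ∀ A ∈ F, ∑ v ∈ A, g v = ∑ v ∈ F.biUnion id, if v ∈ A then g v else 0 := by
    intro A hA
    rw [← sum_filter]
    apply sum_congr _ (fun _ _ => rfl)
    ext v
    rw [mem_filter]
    exact ⟨fun h => ⟨mem_biUnion.2 ⟨A, hA, h⟩, h⟩, fun h => h.2⟩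
  rw [sum_congr rfl h1, sum_comm]
  apply sum_congr rfl
  intro v _
  rw [← sum_filter, sum_const, smul_eq_mul, dg]

theorem sum_dg {F : Finset (Finset V)} (h3 : ∀ A ∈ F, A.card = 3) :
    ∑ v ∈ F.biUnion id, dg F v = 3 * F.card := by
  have h := sum_swap F (fun _ => 1)
  simp only [mul_one] at h
  rw [← h]
  simp only [sum_const, smul_eq_mul, mul_one]
  rw [sum_congr rfl h3, sum_const, smul_eq_mul, mul_comm]

theorem dg_pos {F : Finset (Finset V)} {v : V} (hv : v ∈ F.biUnion id) : 1 ≤ dg F v := by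
  obtain ⟨A, hA, hvA⟩ := mem_biUnion.1 hv
  exact card_pos.2 ⟨A, mem_filter.2 ⟨hA, hvA⟩⟩

theorem ip_le_sum (F : Finset (Finset V)) :
    ip F ≤ ∑ v ∈ F.biUnion id, dg F v * (dg F v - 1) := by
  rw [← sum_swap F (fun v => dg F v - 1), ip]
  apply sum_le_sum
  intro A hA
  calc (F.filter (fun B => B ≠ A ∧ (B ∩ A).Nonempty)).card
      ≤ (A.biUnion (fun v => (F.filter (fun B => v ∈ B)).erase A)).card := by
        apply card_le_card
        intro B hB
        rw [mem_filter] at hB
        obtain ⟨hB, hne, v, hv⟩ := hB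
        rw [mem_inter] at hv
        exact mem_biUnion.2 ⟨v, hv.2, mem_erase.2 ⟨hne, mem_filter.2 ⟨hB, hv.1⟩⟩⟩
    _ ≤ ∑ v ∈ A, ((F.filter (fun B => v ∈ B)).erase A).card := card_biUnion_le
    _ = ∑ v ∈ A, (dg F v - 1) := by
        apply sum_congr rfl
        intro v hv
        rw [card_erase_of_mem (mem_filter.2 ⟨hA, hv⟩), dg]

/-- the covering hypothesis -/
def Cov (F : Finset (Finset V)) : Prop :=
  ∀ s ⊆ F, 2 ≤ s.card → s.card + 3 ≤ (s.biUnion id).card

theorem Cov.mono {F G : Finset (Finset V)} (h : Cov F) (hG : G ⊆ F) : Cov G :=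
  fun s hs => h s (hs.trans hG)

theorem ip_le_max {F : Finset (Finset V)} (h3 : ∀ A ∈ F, A.card = 3) (hc : Cov F)
    (hF : 2 ≤ F.card) {D : ℕ} (hD : ∀ v, dg F v ≤ D) : ip F ≤ D * (2 * F.card - 3) := by
  have h1 : ∑ v ∈ F.biUnion id, (dg F v - 1) + (F.biUnion id).card = 3 * F.card := by
    rw [← sum_dg h3, card_eq_sum_ones, ← sum_add_distrib]
    apply sum_congr rfl
    intro v hv
    have := dg_pos hv
    omega
  have h2 := hc F (Subset.refl _) hF
  calc ip F ≤ ∑ v ∈ F.biUnion id, dg F v * (dg F v - 1) := ip_le_sum F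
    _ ≤ ∑ v ∈ F.biUnion id, D * (dg F v - 1) :=
        sum_le_sum (fun v _ => Nat.mul_le_mul_right _ (hD v))
    _ = D * ∑ v ∈ F.biUnion id, (dg F v - 1) := by rw [mul_sum]
    _ ≤ _ := Nat.mul_le_mul_left _ (by omega)

/-- the number of pairs of intersecting lines, one through `v`, the other not -/
def cross (F : Finset (Finset V)) (v : V) : ℕ :=
  ∑ A ∈ F.filter (fun A => v ∉ A),
    ((F.filter (fun A => v ∈ A)).filter (fun B => (B ∩ A).Nonempty)).card

theorem cross_le {F : Finset (Finset V)} (h3 : ∀ A ∈ F, A.card = 3)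
    (hlin : ∀ A ∈ F, ∀ B ∈ F, A ≠ B → (A ∩ B).card ≤ 1) (v : V) :
    cross F v ≤ 3 * (F.filter (fun A => v ∉ A)).card := by
  calc cross F v ≤ ∑ _A ∈ F.filter (fun A => v ∉ A), 3 := by
        apply sum_le_sum
        intro A hA
        rw [mem_filter] at hA
        exact star_meet (x := v) (fun B hB => (mem_filter.1 hB).2)
          (fun B hB C hC => hlin B (mem_filter.1 hB).1 C (mem_filter.1 hC).1) (h3 A hA.1) hA.2
    _ = _ := by rw [sum_const, smul_eq_mul, mul_comm]

theorem cross_cov {F : Finset (Finset V)} (h3 : ∀ A ∈ F, A.card = 3)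
    (hlin : ∀ A ∈ F, ∀ B ∈ F, A ≠ B → (A ∩ B).card ≤ 1) (v : V) :
    cross F v + (F.biUnion id).card ≤ 1 + 2 * dg F v + 3 * (F.filter (fun A => v ∉ A)).card := by
  set S := F.filter (fun A => v ∈ A) with hS
  set R := F.filter (fun A => v ∉ A) with hR
  set W := S.biUnion id with hW
  have h1 : ∀ A ∈ R, (S.filter (fun B => (B ∩ A).Nonempty)).card + (A \ W).card ≤ 3 := by
    intro A hA
    rw [hR, mem_filter] at hA
    have h4 : (S.filter (fun B => (B ∩ A).Nonempty)).card ≤ (A ∩ W).card := by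
      calc _ ≤ ((A ∩ W).biUnion (fun y => S.filter (fun B => y ∈ B))).card := by
            apply card_le_card
            intro B hB
            rw [mem_filter] at hB
            obtain ⟨hB, y, hy⟩ := hB
            rw [mem_inter] at hy
            exact mem_biUnion.2 ⟨y, mem_inter.2 ⟨hy.2, mem_biUnion.2 ⟨B, hB, hy.1⟩⟩,
              mem_filter.2 ⟨hB, hy.1⟩⟩
        _ ≤ ∑ y ∈ A ∩ W, (S.filter (fun B => y ∈ B)).card := card_biUnion_le
        _ ≤ ∑ _y ∈ A ∩ W, 1 := by
            apply sum_le_sum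
            intro y hy
            rw [mem_inter] at hy
            rw [card_le_one]
            intro B hB C hC
            rw [mem_filter, hS, mem_filter] at hB hC
            by_contra hne
            have h5 := hlin B hB.1.1 C hC.1.1 hne
            rw [card_le_one] at h5
            have h6 := h5 v (mem_inter.2 ⟨hB.1.2, hC.1.2⟩) y (mem_inter.2 ⟨hB.2, hC.2⟩)
            exact hA.2 (h6 ▸ hy.1)
        _ = _ := by simp
    have h5 := card_sdiff_add_card_inter A W
    rw [h3 A hA.1] at h5
    omega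
  have h2 : F.biUnion id ⊆ (insert v (S.biUnion (fun B => B.erase v))) ∪ R.biUnion (fun A => A \ W) := by
    intro z hz
    obtain ⟨A, hA, hzA⟩ := mem_biUnion.1 hz
    rw [mem_union]
    by_cases hzW : z ∈ W
    · left
      obtain ⟨B, hB, hzB⟩ := mem_biUnion.1 hzW
      by_cases hzv : z = v
      · exact mem_insert.2 (Or.inl hzv)
      · exact mem_insert.2 (Or.inr (mem_biUnion.2 ⟨B, hB, mem_erase.2 ⟨hzv, hzB⟩⟩))
    · right
      refine mem_biUnion.2 ⟨A, mem_filter.2 ⟨hA, fun hvA => ?_⟩, mem_sdiff.2 ⟨hzA, hzW⟩⟩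
      exact hzW (mem_biUnion.2 ⟨A, mem_filter.2 ⟨hA, hvA⟩, hzA⟩)
  have h4 := card_le_card h2
  have h5 : ((insert v (S.biUnion (fun B => B.erase v))) ∪ R.biUnion (fun A => A \ W)).card
      ≤ (1 + 2 * dg F v) + ∑ A ∈ R, (A \ W).card := by
    refine (card_union_le _ _).trans (Nat.add_le_add ?_ card_biUnion_le)
    refine (card_insert_le _ _).trans ?_
    have h6 : (S.biUnion (fun B => B.erase v)).card ≤ ∑ B ∈ S, (B.erase v).card := card_biUnion_le
    have h7 : ∑ B ∈ S, (B.erase v).card = ∑ _B ∈ S, 2 := by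
      apply sum_congr rfl
      intro B hB
      rw [hS, mem_filter] at hB
      rw [card_erase_of_mem hB.2, h3 B hB.1]
    rw [h7, sum_const, smul_eq_mul] at h6
    have h8 : dg F v = S.card := rfl
    omega
  have h6 : cross F v + ∑ A ∈ R, (A \ W).card ≤ 3 * R.card := by
    rw [cross, ← sum_add_distrib]
    calc _ ≤ ∑ _A ∈ R, 3 := sum_le_sum h1
      _ = _ := by rw [sum_const, smul_eq_mul, mul_comm]
  omega

theorem ip_split' (F : Finset (Finset V)) (v : V) :
    ip F ≤ dg F v * (dg F v - 1) + 2 * cross F v + ip (F.filter (fun A => v ∉ A)) := by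
  unfold dg cross
  set S := F.filter (fun A => v ∈ A) with hS
  set R := F.filter (fun A => v ∉ A) with hR
  have hd : Disjoint S R := disjoint_filter_filter_not F F (fun A => v ∈ A)
  have hu : F = S ∪ R := (filter_union_filter_not_eq (fun A => v ∈ A) F).symm
  have hsplit : ∀ A, (F.filter (fun B => B ≠ A ∧ (B ∩ A).Nonempty)).card
      = (S.filter (fun B => B ≠ A ∧ (B ∩ A).Nonempty)).card
        + (R.filter (fun B => B ≠ A ∧ (B ∩ A).Nonempty)).card := by
    intro A
    conv_lhs => rw [hu, filter_union]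
    exact card_union_of_disjoint (disjoint_filter_filter hd)
  have e1 : ip F = (∑ A ∈ S, (S.filter (fun B => B ≠ A ∧ (B ∩ A).Nonempty)).card
        + ∑ A ∈ S, (R.filter (fun B => B ≠ A ∧ (B ∩ A).Nonempty)).card)
      + (∑ A ∈ R, (S.filter (fun B => B ≠ A ∧ (B ∩ A).Nonempty)).card
        + ∑ A ∈ R, (R.filter (fun B => B ≠ A ∧ (B ∩ A).Nonempty)).card) := by
    rw [← sum_add_distrib, ← sum_add_distrib, ip]
    conv_lhs => rw [hu, sum_union hd]
    congr 1 <;> exact sum_congr rfl (fun A _ => by rw [← hu]; exact hsplit A)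
  have e2 : ∑ A ∈ S, (S.filter (fun B => B ≠ A ∧ (B ∩ A).Nonempty)).card ≤ S.card * (S.card - 1) :=
    ip_le S
  have e3 : ∑ A ∈ R, (S.filter (fun B => B ≠ A ∧ (B ∩ A).Nonempty)).card
      ≤ ∑ A ∈ R, (S.filter (fun B => (B ∩ A).Nonempty)).card := by
    refine sum_le_sum fun A _ => card_le_card ?_
    intro B hB
    rw [mem_filter] at hB ⊢
    exact ⟨hB.1, hB.2.2⟩
  have e4 : ∑ A ∈ S, (R.filter (fun B => B ≠ A ∧ (B ∩ A).Nonempty)).card
      ≤ ∑ A ∈ R, (S.filter (fun B => (B ∩ A).Nonempty)).card := by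
    refine le_trans (sum_le_sum fun A _ => card_le_card ?_) (cross_comm S R).le
    intro B hB
    rw [mem_filter] at hB ⊢
    exact ⟨hB.1, hB.2.2⟩
  have e5 : ∑ A ∈ R, (R.filter (fun B => B ≠ A ∧ (B ∩ A).Nonempty)).card = ip R := rfl
  omega

theorem arith_i {d e r x y : ℕ} (he : d = e + 5) (hr : d ≤ 5 * r) (hy : y ≤ r * (r - 1))
    (hx : x ≤ (e + 5) * (e + 4) + 6 * r + y) (h : 120 * y ≤ 89 * r ^ 2) :
    120 * x ≤ 89 * (d + r) ^ 2 := by
  subst he
  rcases Nat.lt_or_ge r 2 with h2 | h2
  · have h1 : r = 1 := by omega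
    subst h1
    have : e = 0 := by omega
    subst this
    simp at hy hx ⊢
    omega
  · obtain ⟨s, rfl⟩ : ∃ s, r = s + 2 := ⟨r - 2, by omega⟩
    have h3 : e ≤ 5 * s + 5 := by omega
    zify at h3 hx h ⊢
    nlinarith [mul_nonneg (show (0 : ℤ) ≤ 5 * s + 5 - e by linarith) (show (0 : ℤ) ≤ e by positivity),
      mul_nonneg (show (0 : ℤ) ≤ s by positivity) (show (0 : ℤ) ≤ e by positivity)]

theorem arith_ii {d e x : ℕ} (he : d = e + 5) (hr : d ≤ 5 * 4)
    (hx : x ≤ (e + 5) * (e + 4) + 6 * 4 + 12) : 120 * x ≤ 89 * (d + 4) ^ 2 := by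
  subst he
  have h : e * e ≤ 15 * e := Nat.mul_le_mul_right _ (by omega)
  nlinarith

theorem arith_iii {d e r x y : ℕ} (he : d = e + 5) (hr : d ≤ 5 * r) (h5 : 5 ≤ r) (h6 : 5 * r < 6 * d)
    (hy : y ≤ r * (r - 1)) (hx : x ≤ (e + 5) * (e + 4) + 6 * r + y) :
    120 * x ≤ 89 * (d + r) ^ 2 := by
  subst he
  obtain ⟨s, rfl⟩ : ∃ s, r = s + 5 := ⟨r - 5, by omega⟩
  have e1 : s + 5 - 1 = s + 4 := by omega
  rw [e1] at hy
  have h3 : e ≤ 5 * s + 20 := by omega
  have h4 : 5 * s ≤ 6 * e + 4 := by omega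
  zify at h3 h4 hx hy ⊢
  nlinarith [mul_nonneg (show (0 : ℤ) ≤ 5 * s + 20 - e by linarith)
      (show (0 : ℤ) ≤ 6 * e + 4 - 5 * s by linarith),
    mul_nonneg (show (0 : ℤ) ≤ s by positivity) (show (0 : ℤ) ≤ e by positivity)]

/-- Stable form of the bound on intersecting pairs. -/
theorem ip_stable (n : ℕ) : ∀ F : Finset (Finset V), F.card = n → (∀ A ∈ F, A.card = 3) →
    (∀ A ∈ F, ∀ B ∈ F, A ≠ B → (A ∩ B).card ≤ 1) → Cov F →
    120 * ip F ≤ 89 * F.card ^ 2 ∨ (F.card = 4 ∧ ip F = 12) ∨
      ∃ v, 5 ≤ dg F v ∧ 5 * F.card < 6 * dg F v := by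
  induction n using Nat.strong_induction_on with
  | _ n ih =>
    intro F hF h3 hlin hc
    have htriv := ip_le F
    -- few lines
    by_cases hn1 : F.card ≤ 1
    · left
      have : F.card * (F.card - 1) = 0 := by interval_cases F.card <;> rfl
      omega
    push Not at hn1
    -- a point of maximal degree
    obtain ⟨A0, hA0⟩ : F.Nonempty := card_pos.1 (by omega)
    obtain ⟨x0, hx0⟩ : A0.Nonempty := card_pos.1 (by rw [h3 A0 hA0]; norm_num)
    obtain ⟨v, hvU, hm⟩ := exists_max_image (F.biUnion id) (dg F)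
      ⟨x0, mem_biUnion.2 ⟨A0, hA0, hx0⟩⟩
    have hmax : ∀ x, dg F x ≤ dg F v := by
      intro x
      by_cases hx : x ∈ F.biUnion id
      · exact hm x hx
      · have : F.filter (fun A => x ∈ A) = ∅ := by
          rw [filter_eq_empty_iff]
          intro A hA hxA
          exact hx (mem_biUnion.2 ⟨A, hA, hxA⟩)
        rw [dg, this]
        simp
    have hb := ip_le_max h3 hc hn1 hmax
    have hsp := ip_split' F v
    have hc3 := cross_le h3 hlin v
    have hcc := cross_cov h3 hlin v
    have hcF := hc F (Subset.refl _) hn1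
    set R := F.filter (fun A => v ∉ A) with hR
    have hRF : R ⊆ F := filter_subset _ _
    have hcard : dg F v + R.card = F.card := card_filter_add_card_filter_not (fun A => v ∈ A)
    have hpos := dg_pos hvU
    have hRtriv := ip_le R
    set d := dg F v with hd
    set t := F.card with ht
    by_cases hd4 : d ≤ 4
    · by_cases ht9 : 9 ≤ t
      · left
        have h1 : ip F ≤ 4 * (2 * t - 3) := hb.trans (Nat.mul_le_mul_right _ hd4)
        obtain ⟨u, hu⟩ : ∃ u, t = u + 9 := ⟨t - 9, by omega⟩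
        rw [hu] at h1 ⊢
        have h2 : ip F ≤ 8 * u + 60 := by omega
        nlinarith
      · push Not at ht9
        have h1 : ip F ≤ d * (d - 1) + 2 * min (3 * (t - d)) (d + 2 * (t - d) - 2)
            + (t - d) * (t - d - 1) := by
          have e1 : R.card = t - d := by omega
          rw [e1] at hc3 hcc hRtriv
          have e2 : cross F v ≤ min (3 * (t - d)) (d + 2 * (t - d) - 2) := by
            rw [le_min_iff]
            constructor
            · exact hc3
            · omega
          omega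
        have hdt : d ≤ t := by omega
        rcases Nat.lt_or_ge t 4 with h4 | h4
        · left
          interval_cases t <;> omega
        · by_cases h44 : t = 4
          · rw [h44] at htriv ⊢
            by_cases h12 : ip F = 12
            · exact Or.inr (Or.inl ⟨rfl, h12⟩)
            · left; omega
          · left
            have h5 : 5 ≤ t := by omega
            clear_value d t
            interval_cases t <;> interval_cases d <;> simp at h1 hb ⊢ <;> omega
    push Not at hd4
    by_cases hdom : 5 * t < 6 * d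
    · exact Or.inr (Or.inr ⟨v, by omega, by omega⟩)
    left
    have hrec := ih R.card (by omega) R rfl (fun A hA => h3 A (hRF hA))
      (fun A hA B hB => hlin A (hRF hA) B (hRF hB)) (hc.mono hRF)
    have hspl : ip F ≤ d * (d - 1) + 6 * R.card + ip R := by omega
    have hr : d ≤ 5 * R.card := by omega
    rw [← hcard]
    set r := R.card with hrdef
    obtain ⟨e, he⟩ : ∃ e, d = e + 5 := ⟨d - 5, by omega⟩
    have hdd : d * (d - 1) = (e + 5) * (e + 4) := by
      rw [he]; rfl
    rw [hdd] at hspl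
    rcases hrec with hrec | ⟨h4, h12⟩ | ⟨w, hw5, hwd⟩
    · exact arith_i he hr hRtriv hspl hrec
    · rw [h12, h4] at hspl
      rw [h4] at hr ⊢
      exact arith_ii he hr hspl
    · have hwle : dg R w ≤ d := (card_le_card (filter_subset_filter _ hRF)).trans (hmax w)
      have hwR : dg R w ≤ r := card_le_card (filter_subset _ _)
      exact arith_iii he hr (by omega) (by omega) hRtriv hspl

end Pool.Agent.MPc82047h80
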