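import Pool.Agent.Lib.MP_c82047_co80.Plane
import Pool.Agent.Lib.MP_c82047_co80.Remove

/-!
# The stable plane inequality

In a plane the average number of lines of other blocks meeting a line is at most `89/120` of the
number of lines in other blocks plus one, unless the plane consists of four pairwise intersecting
lines.
-/

set_option autoImplicit false

namespace Pool.Agent.MPc82047h80

open Finset

variable {V : Type*} [DecidableEq V]

section plane

variable {P : Finset V} {L : Finset (Finset V)} {blk : Finset V → Finset V}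

/-- Nontrivial blocks: at most two thirds of the lines meet a given line outside. -/
theorem blocks_meet2 (h : IsPlane P L blk) {N : Finset (Finset V)} (hN : N ⊆ L)
    (hcl : ∀ F ∈ N, ∀ G ∈ L, blk G = blk F → G ∈ N)
    (hm : ∀ F ∈ N, 2 ≤ (L.filter (fun G => blk G = blk F)).card)
    {E : Finset V} (hE : E ∈ L) (hne : ∀ F ∈ N, blk F ≠ blk E) :
    3 * (N.filter (fun F => (F ∩ E).Nonempty)).card ≤ 2 * N.card := by
  have e1 : (N.filter (fun F => (F ∩ E).Nonempty)).card
      = ∑ B ∈ N.image blk, ((N.filter (fun F => (F ∩ E).Nonempty)).filter (fun F => blk F = B)).card := by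
    apply card_eq_sum_card_fiberwise
    intro F hF
    exact mem_coe.2 (mem_image_of_mem _ (mem_filter.1 hF).1)
  have e2 : N.card = ∑ B ∈ N.image blk, (N.filter (fun F => blk F = B)).card := by
    apply card_eq_sum_card_fiberwise
    intro F hF
    exact mem_coe.2 (mem_image_of_mem _ hF)
  rw [e1, e2, mul_sum, mul_sum]
  apply sum_le_sum
  intro B hB
  obtain ⟨F0, hF0, rfl⟩ := mem_image.1 hB
  have e3 : N.filter (fun F => blk F = blk F0) = L.filter (fun F => blk F = blk F0) := by
    ext F
    simp only [mem_filter]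
    constructor
    · exact fun h => ⟨hN h.1, h.2⟩
    · exact fun h => ⟨hcl F0 hF0 F h.1 h.2, h.2⟩
  rw [e3]
  have hm0 := hm F0 hF0
  rcases ((N.filter (fun F => (F ∩ E).Nonempty)).filter (fun F => blk F = blk F0)).eq_empty_or_nonempty
    with he | ⟨F1, hF1⟩
  · rw [he]; simp
  · rw [mem_filter, mem_filter] at hF1
    obtain ⟨⟨hF1N, y, hy⟩, hF1b⟩ := hF1
    rw [mem_inter] at hy
    have h5 := h.inter F0 (hN hF0) E hE (hne F0 hF0)
    rw [card_le_one] at h5
    have hyB : y ∈ blk F0 := hF1b ▸ h.mem F1 (hN hF1N) hy.1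
    have h6 := star_card (S := (N.filter (fun F => (F ∩ E).Nonempty)).filter (fun F => blk F = blk F0))
      (v := y) (B := blk F0) (fun A hA => h.card3 A (hN (mem_filter.1 (mem_filter.1 hA).1).1))
      (fun A hA => by
        rw [mem_filter, mem_filter] at hA
        obtain ⟨⟨hAN, z, hz⟩, hAb⟩ := hA
        rw [mem_inter] at hz
        have h7 := h5 z (mem_inter.2 ⟨hAb ▸ h.mem A (hN hAN) hz.1, h.mem E hE hz.2⟩) y
          (mem_inter.2 ⟨hyB, h.mem E hE hy.2⟩)
        exact h7 ▸ hz.1)
      (fun A hA C hC hAC => h.lin A (hN (mem_filter.1 (mem_filter.1 hA).1).1) C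
        (hN (mem_filter.1 (mem_filter.1 hC).1).1) hAC)
      (fun A hA => by
        rw [mem_filter, mem_filter] at hA
        exact hA.2 ▸ h.mem A (hN hA.1.1)) hyB
    rw [h.blkcard F0 (hN hF0)] at h6
    omega

theorem triv_cov (h : IsPlane P L blk) : Cov (triv L blk) := by
  intro s hs hs2
  by_contra hcon
  have hsL : s ⊆ L := hs.trans (filter_subset _ _)
  obtain ⟨G, hG⟩ : s.Nonempty := card_pos.1 (by omega)
  obtain ⟨E, hE, hsub⟩ := h.sparse (s.biUnion id)
    (by
      intro x hx
      obtain ⟨A, hA, hxA⟩ := mem_biUnion.1 hx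
      exact h.blkP A (hsL hA) (h.mem A (hsL hA) hxA))
    ⟨G, hsL hG, fun x hx => mem_biUnion.2 ⟨G, hG, hx⟩⟩
    (by
      have h2 : s ⊆ L.filter (fun F => F ⊆ s.biUnion id) := fun A hA =>
        mem_filter.2 ⟨hsL hA, fun x hx => mem_biUnion.2 ⟨A, hA, hx⟩⟩
      have h3 := card_le_card h2
      omega)
  have h4 : s ⊆ {G} := by
    intro A hA
    rw [mem_singleton]
    have h5 : ∀ B ∈ s, blk B = blk E := fun B hB =>
      h.cont E hE B (hsL hB) (fun x hx => hsub (mem_biUnion.2 ⟨B, hB, hx⟩))
    exact triv_inj (hs hG) (hsL hA) ((h5 A hA).trans (h5 G hG).symm)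
  have h6 := card_le_card h4
  rw [card_singleton] at h6
  omega

theorem arith2 {D t p q : ℕ} (hD : 5 ≤ D) (h5 : 5 * (D + t) < 6 * D) (hq : D ≤ t + q + 2) :
    120 * (D * (D - 1)) + 720 * t + 120 * (t * (t - 1)) + 160 * D * p + 720 * q + 160 * t * (p + q)
      ≤ 89 * (D + t) ^ 2 + 178 * (D + t) * (p + q) + 89 * (p + q) := by
  obtain ⟨e, rfl⟩ : ∃ e, D = e + 5 := ⟨D - 5, by omega⟩
  have e1 : e + 5 - 1 = e + 4 := by omega
  rw [e1]
  have h1 : 5 * t ≤ e + 4 := by omega
  have h2 : e + 3 ≤ t + q := by omega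
  rcases Nat.eq_zero_or_pos t with rfl | ht
  · simp only [mul_zero, zero_mul, add_zero, zero_add] at h2 ⊢
    obtain ⟨r, rfl⟩ : ∃ r, q = e + 3 + r := ⟨q - (e + 3), by omega⟩
    nlinarith [Nat.zero_le (e * p), Nat.zero_le (e * r), Nat.zero_le (e * e)]
  · obtain ⟨s, rfl⟩ : ∃ s, t = s + 1 := ⟨t - 1, by omega⟩
    obtain ⟨u, rfl⟩ : ∃ u, e = 5 * s + 1 + u := ⟨e - (5 * s + 1), by omega⟩
    obtain ⟨r, rfl⟩ : ∃ r, q = 4 * s + 3 + u + r := ⟨q - (4 * s + 3 + u), by omega⟩
    simp only [Nat.add_sub_cancel]
    nlinarith [Nat.zero_le (s * p), Nat.zero_le (s * r), Nat.zero_le (s * s), Nat.zero_le (u * u),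
      Nat.zero_le (u * s), Nat.zero_le (u * p), Nat.zero_le (u * r)]

/-- Stable form of the plane inequality. -/
theorem plane_ineq2 (h : IsPlane P L blk) :
    120 * ∑ E ∈ L, (L.filter (fun F => blk F ≠ blk E ∧ (F ∩ E).Nonempty)).card
      ≤ 89 * ∑ E ∈ L, ((L.filter (fun F => blk F ≠ blk E)).card + 1) ∨
    ((∀ E ∈ L, blk E = E) ∧ L.card = 4 ∧ ip L = 12) := by
  set T := triv L blk with hT
  set N := L.filter (fun E => ¬ (L.filter (fun F => blk F = blk E)).card = 1) with hN
  have hTL : T ⊆ L := filter_subset _ _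
  have hNL : N ⊆ L := filter_subset _ _
  have hd : Disjoint T N := disjoint_filter_filter_not L L _
  have hu : L = T ∪ N := (filter_union_filter_not_eq _ L).symm
  have hself : ∀ E ∈ L, 1 ≤ (L.filter (fun F => blk F = blk E)).card :=
    fun E hE => card_pos.2 ⟨E, mem_filter.2 ⟨hE, rfl⟩⟩
  have hN2 : ∀ F ∈ N, 2 ≤ (L.filter (fun G => blk G = blk F)).card := by
    intro F hF
    have h1 := mem_filter.1 hF
    have h2 := hself F h1.1
    omega
  have hNcl : ∀ F ∈ N, ∀ G ∈ L, blk G = blk F → G ∈ N := by
    intro F hF G hG hb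
    refine mem_filter.2 ⟨hG, ?_⟩
    rw [hb]
    exact (mem_filter.1 hF).2
  have hTN : ∀ E ∈ T, ∀ F ∈ N, blk F ≠ blk E := by
    intro E hE F hF hb
    have h1 := triv_inj hE (hNL hF) hb
    subst h1
    exact disjoint_left.1 hd hE hF
  -- splitting
  have hsplit : ∀ E (p : Finset V → Prop) [DecidablePred p],
      (L.filter (fun F => blk F ≠ blk E ∧ p F)).card
        = (T.filter (fun F => blk F ≠ blk E ∧ p F)).card
          + (N.filter (fun F => blk F ≠ blk E ∧ p F)).card := by
    intro E p _
    conv_lhs => rw [hu, filter_union]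
    exact card_union_of_disjoint (disjoint_filter_filter hd)
  set a : Finset V → ℕ := fun E => (N.filter (fun F => (F ∩ E).Nonempty)).card with ha
  set a' : Finset V → ℕ := fun E => (N.filter (fun F => blk F ≠ blk E ∧ (F ∩ E).Nonempty)).card
    with ha'
  set b : Finset V → ℕ := fun E => (N.filter (fun F => blk F ≠ blk E)).card with hb
  have hL1 : ∑ E ∈ L, (L.filter (fun F => blk F ≠ blk E ∧ (F ∩ E).Nonempty)).card
      = ip T + 2 * ∑ E ∈ T, a E + ∑ E ∈ N, a' E := by
    have h1 : ∑ E ∈ T, (L.filter (fun F => blk F ≠ blk E ∧ (F ∩ E).Nonempty)).card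
        = ip T + ∑ E ∈ T, a E := by
      rw [ip, ← sum_add_distrib]
      apply sum_congr rfl
      intro E hE
      rw [hsplit E]
      congr 1
      · congr 1
        apply filter_congr
        intro F hF
        constructor
        · rintro ⟨h1, h2⟩
          exact ⟨fun h3 => h1 (by rw [h3]), h2⟩
        · rintro ⟨h1, h2⟩
          exact ⟨fun h3 => h1 (triv_inj hE (hTL hF) h3), h2⟩
      · congr 1
        apply filter_congr
        intro F hF
        exact ⟨fun h1 => h1.2, fun h1 => ⟨hTN E hE F hF, h1⟩⟩
    have h2 : ∑ E ∈ N, (L.filter (fun F => blk F ≠ blk E ∧ (F ∩ E).Nonempty)).card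
        = ∑ E ∈ T, a E + ∑ E ∈ N, a' E := by
      rw [ha, cross_comm, ← sum_add_distrib]
      apply sum_congr rfl
      intro E hE
      rw [hsplit E]
      congr 2
      apply filter_congr
      intro F hF
      exact ⟨fun h1 => h1.2, fun h1 => ⟨(hTN F hF E hE).symm, h1⟩⟩
    conv_lhs => rw [hu, sum_union hd]
    rw [← hu, h1, h2]
    ring
  have hL2 : ∑ E ∈ L, ((L.filter (fun F => blk F ≠ blk E)).card + 1)
      = T.card ^ 2 + 2 * T.card * N.card + ∑ E ∈ N, b E + N.card := by
    have hsplit' : ∀ E, (L.filter (fun F => blk F ≠ blk E)).card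
        = (T.filter (fun F => blk F ≠ blk E)).card + (N.filter (fun F => blk F ≠ blk E)).card := by
      intro E
      conv_lhs => rw [hu, filter_union]
      exact card_union_of_disjoint (disjoint_filter_filter hd)
    have h1 : ∑ E ∈ T, ((L.filter (fun F => blk F ≠ blk E)).card + 1)
        = ∑ _E ∈ T, (T.card + N.card) := by
      apply sum_congr rfl
      intro E hE
      rw [hsplit' E]
      have h3 : T.filter (fun F => blk F ≠ blk E) = T.erase E := by
        ext F
        rw [mem_filter, mem_erase]
        constructor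
        · rintro ⟨h4, h5⟩
          exact ⟨fun h6 => h5 (by rw [h6]), h4⟩
        · rintro ⟨h4, h5⟩
          exact ⟨h5, fun h6 => h4 (triv_inj hE (hTL h5) h6)⟩
      have h4 : N.filter (fun F => blk F ≠ blk E) = N := filter_true_of_mem (hTN E hE)
      rw [h3, h4, card_erase_of_mem hE]
      have h5 : 0 < T.card := card_pos.2 ⟨E, hE⟩
      omega
    have h2 : ∑ E ∈ N, ((L.filter (fun F => blk F ≠ blk E)).card + 1)
        = ∑ E ∈ N, (b E + (T.card + 1)) := by
      apply sum_congr rfl
      intro E hE
      rw [hsplit' E]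
      have h4 : T.filter (fun F => blk F ≠ blk E) = T :=
        filter_true_of_mem (fun F hF => (hTN F hF E hE).symm)
      rw [h4, hb]
      ring
    conv_lhs => rw [hu, sum_union hd]
    rw [← hu, h1, h2, sum_const, sum_add_distrib, sum_const, smul_eq_mul, smul_eq_mul]
    ring
  have hNab : 3 * ∑ E ∈ N, a' E ≤ 2 * ∑ E ∈ N, b E := by
    rw [mul_sum, mul_sum]
    apply sum_le_sum
    intro E hE
    have h1 := blocks_meet2 h (N := N.filter (fun F => blk F ≠ blk E))
      ((filter_subset _ _).trans hNL)
      (fun F hF G hG hbb => by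
        rw [mem_filter] at hF ⊢
        exact ⟨hNcl F hF.1 G hG hbb, by rw [hbb]; exact hF.2⟩)
      (fun F hF => hN2 F (mem_filter.1 hF).1) (hNL hE) (fun F hF => (mem_filter.1 hF).2)
    rw [filter_filter] at h1
    exact h1
  have hTa : ∀ E ∈ T, 3 * a E ≤ 2 * N.card := by
    intro E hE
    exact blocks_meet2 h hNL hNcl hN2 (hTL hE) (hTN E hE)
  have hTa' : 3 * ∑ E ∈ T, a E ≤ 2 * (T.card * N.card) := by
    rw [mul_sum]
    calc _ ≤ ∑ _E ∈ T, 2 * N.card := sum_le_sum hTa
      _ = _ := by rw [sum_const, smul_eq_mul]; ring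
  rcases ip_stable T.card T rfl (fun A hA => h.card3 A (hTL hA))
    (fun A hA B hB => h.lin A (hTL hA) B (hTL hB)) (triv_cov h) with hc | ⟨h4, h12⟩ | ⟨v, hv5, hvd⟩
  · -- few intersecting pairs
    left
    rw [hL1, hL2]
    have z1 := Nat.zero_le (T.card * N.card)
    have z2 := Nat.zero_le (∑ E ∈ N, b E)
    nlinarith
  · -- four pairwise intersecting lines
    by_cases hN0 : N.card = 0
    · right
      have hLT : L = T := by
        rw [card_eq_zero] at hN0
        conv_lhs => rw [hu, hN0, union_empty]
      refine ⟨fun E hE => triv_blk h (by rw [hLT] at hE; exact hE), ?_, ?_⟩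
      · rw [hLT]; exact h4
      · rw [hLT]; exact h12
    · left
      rw [hL1, hL2, h12, h4]
      rw [h4] at hTa'
      have : 1 ≤ N.card := by omega
      omega
  · -- a hub
    left
    rw [hL1, hL2]
    change 5 ≤ (T.filter (fun A => v ∈ A)).card at hv5
    change 5 * T.card < 6 * (T.filter (fun A => v ∈ A)).card at hvd
    set S := T.filter (fun A => v ∈ A) with hS
    set R := T.filter (fun A => v ∉ A) with hR
    have hST : S ⊆ T := filter_subset _ _
    have hRT : R ⊆ T := filter_subset _ _
    have hcardT : S.card + R.card = T.card := card_filter_add_card_filter_not (fun A => v ∈ A)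
    have hip := ip_split T v (fun A hA => h.card3 A (hTL hA))
      (fun A hA B hB => h.lin A (hTL hA) B (hTL hB))
    change ip T ≤ S.card * (S.card - 1) + 6 * R.card + ip R at hip
    have hipR := ip_le R
    set Ni := N.filter (fun F => v ∈ blk F) with hNi
    set No := N.filter (fun F => v ∉ blk F) with hNo
    have hNiN : Ni ⊆ N := filter_subset _ _
    have hNoN : No ⊆ N := filter_subset _ _
    have hcardN : Ni.card + No.card = N.card := card_filter_add_card_filter_not (fun A => v ∈ blk A)
    have hsa : ∀ E, a E = (Ni.filter (fun F => (F ∩ E).Nonempty)).card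
        + (No.filter (fun F => (F ∩ E).Nonempty)).card := by
      intro E
      change (N.filter (fun F => (F ∩ E).Nonempty)).card = _
      have : N = Ni ∪ No := (filter_union_filter_not_eq (fun A => v ∈ blk A) N).symm
      conv_lhs => rw [this, filter_union]
      exact card_union_of_disjoint (disjoint_filter_filter (disjoint_filter_filter_not N N _))
    have h1 : 3 * ∑ E ∈ S, (Ni.filter (fun F => (F ∩ E).Nonempty)).card ≤ 2 * (S.card * Ni.card) := by
      rw [mul_sum]
      calc _ ≤ ∑ _E ∈ S, 2 * Ni.card := by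
            apply sum_le_sum
            intro E hE
            exact blocks_meet2 h (hNiN.trans hNL)
              (fun F hF G hG hbb => by
                rw [hNi, mem_filter] at hF ⊢
                exact ⟨hNcl F hF.1 G hG hbb, by rw [hbb]; exact hF.2⟩)
              (fun F hF => hN2 F (hNiN hF)) (hTL (hST hE)) (fun F hF => hTN E (hST hE) F (hNiN hF))
        _ = _ := by rw [sum_const, smul_eq_mul]; ring
    have h2 : ∑ E ∈ S, (No.filter (fun F => (F ∩ E).Nonempty)).card ≤ 3 * No.card := by
      rw [cross_comm]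
      calc _ ≤ ∑ _F ∈ No, 3 := by
            apply sum_le_sum
            intro F hF
            refine star_meet (x := v) (fun A hA => (mem_filter.1 hA).2)
              (fun A hA B hB => h.lin A (hTL (hST hA)) B (hTL (hST hB)))
              (h.card3 F (hNL (hNoN hF))) (fun hvF => ?_)
            exact (mem_filter.1 hF).2 (h.mem F (hNL (hNoN hF)) hvF)
        _ = _ := by rw [sum_const, smul_eq_mul, mul_comm]
    have h3 : 3 * ∑ E ∈ R, a E ≤ 2 * (R.card * N.card) := by
      rw [mul_sum]
      calc _ ≤ ∑ _E ∈ R, 2 * N.card := sum_le_sum (fun E hE => hTa E (hRT hE))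
        _ = _ := by rw [sum_const, smul_eq_mul]; ring
    have h4 : ∑ E ∈ T, a E = ∑ E ∈ S, (Ni.filter (fun F => (F ∩ E).Nonempty)).card
        + ∑ E ∈ S, (No.filter (fun F => (F ∩ E).Nonempty)).card + ∑ E ∈ R, a E := by
      have h5 : ∑ E ∈ T, a E = ∑ E ∈ S, a E + ∑ E ∈ R, a E :=
        (sum_filter_add_sum_filter_not T (fun A => v ∈ A) a).symm
      rw [h5, ← sum_add_distrib]
      congr 1
      exact sum_congr rfl (fun E _ => hsa E)
    -- the hub fills the plane
    have hq : S.card ≤ R.card + No.card + 2 := by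
      obtain ⟨G, hG⟩ : S.Nonempty := card_pos.1 (by omega)
      have hvP : v ∈ P := h.blkP G (hTL (hST hG)) (h.mem G (hTL (hST hG)) (mem_filter.1 hG).2)
      have hdSN : Disjoint S Ni := Disjoint.mono hST hNiN hd
      have h6 := hub_card h (M := S ∪ Ni) (v := v)
        (union_subset (hST.trans hTL) (hNiN.trans hNL))
        (fun F hF G hG hbb => by
          rw [mem_union] at hF ⊢
          rcases hF with hF | hF
          · have := triv_inj (hST hF) hG hbb
            subst this
            exact Or.inl hF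
          · right
            rw [hNi, mem_filter] at hF ⊢
            exact ⟨hNcl F hF.1 G hG hbb, by rw [hbb]; exact hF.2⟩)
        (fun F hF => by
          rw [mem_union] at hF
          rcases hF with hF | hF
          · exact h.mem F (hTL (hST hF)) (mem_filter.1 hF).2
          · exact (mem_filter.1 hF).2) hvP
      have h7 : S.card ≤ ((S ∪ Ni).image blk).card := by
        calc S.card = (S.image blk).card := by
              rw [card_image_of_injOn]
              intro A hA B hB hAB
              exact triv_inj (hST (mem_coe.1 hB)) (hTL (hST (mem_coe.1 hA))) hAB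
          _ ≤ _ := card_le_card (image_subset_image subset_union_left)
      rw [card_union_of_disjoint hdSN, h.tight] at h6
      have h8 : L.card = T.card + N.card := by
        conv_lhs => rw [hu]
        exact card_union_of_disjoint hd
      omega
    have hfin := arith2 (D := S.card) (t := R.card) (p := Ni.card) (q := No.card) hv5
      (by rw [hcardT]; exact hvd) (by omega)
    have z2 := Nat.zero_le (∑ E ∈ N, b E)
    rw [h4, ← hcardT, ← hcardN]
    rw [← hcardN] at h3
    nlinarith

end plane

end Pool.Agent.MPc82047h80
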