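import Mathlib

/-!
# Intersecting pairs of lines in a linear triple system

`ip_or_hub`: if any five lines of a linear triple system which are not concurrent contain two
disjoint ones, then at most three quarters of the ordered pairs of lines intersect or there is a
point on more than five sixths of the lines.
-/

set_option autoImplicit false

namespace Pool.Agent.MPc82047h80

open Finset

variable {V : Type*} [DecidableEq V]

/-- A line not through `x` meets at most three lines of a star at `x`. -/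
theorem star_meet {S : Finset (Finset V)} {x : V} {H : Finset V}
    (hx : ∀ A ∈ S, x ∈ A) (hlin : ∀ A ∈ S, ∀ B ∈ S, A ≠ B → (A ∩ B).card ≤ 1)
    (hH : H.card = 3) (hxH : x ∉ H) :
    (S.filter (fun A => (A ∩ H).Nonempty)).card ≤ 3 := by
  have h1 : S.filter (fun A => (A ∩ H).Nonempty) ⊆ H.biUnion (fun y => S.filter (fun A => y ∈ A)) := by
    intro A hA
    rw [mem_filter] at hA
    obtain ⟨hA, y, hy⟩ := hA
    rw [mem_inter] at hy
    exact mem_biUnion.2 ⟨y, hy.2, mem_filter.2 ⟨hA, hy.1⟩⟩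
  have h2 : ∀ y ∈ H, (S.filter (fun A => y ∈ A)).card ≤ 1 := by
    intro y hy
    rw [card_le_one]
    intro A hA B hB
    rw [mem_filter] at hA hB
    by_contra hne
    have h3 := hlin A hA.1 B hB.1 hne
    rw [card_le_one] at h3
    have h4 := h3 x (mem_inter.2 ⟨hx A hA.1, hx B hB.1⟩) y (mem_inter.2 ⟨hA.2, hB.2⟩)
    exact hxH (h4 ▸ hy)
  calc (S.filter (fun A => (A ∩ H).Nonempty)).card ≤ _ := card_le_card h1
    _ ≤ ∑ y ∈ H, (S.filter (fun A => y ∈ A)).card := card_biUnion_le
    _ ≤ ∑ _y ∈ H, 1 := sum_le_sum h2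
    _ = 3 := by simp [hH]

/-- A line not through `x` meeting three lines of a star at `x` lies in their union. -/
theorem star_cover {S : Finset (Finset V)} {x : V} {H : Finset V}
    (hx : ∀ A ∈ S, x ∈ A) (hlin : ∀ A ∈ S, ∀ B ∈ S, A ≠ B → (A ∩ B).card ≤ 1)
    (hH : H.card = 3) (hxH : x ∉ H) (hS : 3 ≤ S.card) (hm : ∀ A ∈ S, (A ∩ H).Nonempty) :
    H ⊆ S.biUnion id := by
  intro z hz
  by_contra hzn
  have hz2 : ∀ A ∈ S, z ∉ A := fun A hA h => hzn (mem_biUnion.2 ⟨A, hA, h⟩)
  have h1 : S ⊆ (H.erase z).biUnion (fun y => S.filter (fun A => y ∈ A)) := by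
    intro A hA
    obtain ⟨y, hy⟩ := hm A hA
    rw [mem_inter] at hy
    refine mem_biUnion.2 ⟨y, mem_erase.2 ⟨?_, hy.2⟩, mem_filter.2 ⟨hA, hy.1⟩⟩
    rintro rfl
    exact hz2 A hA hy.1
  have h2 : ∀ y ∈ H.erase z, (S.filter (fun A => y ∈ A)).card ≤ 1 := by
    intro y hy
    rw [card_le_one]
    intro A hA B hB
    rw [mem_filter] at hA hB
    by_contra hne
    have h3 := hlin A hA.1 B hB.1 hne
    rw [card_le_one] at h3
    have h4 := h3 x (mem_inter.2 ⟨hx A hA.1, hx B hB.1⟩) y (mem_inter.2 ⟨hA.2, hB.2⟩)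
    exact hxH (h4 ▸ (mem_erase.1 hy).2)
  have h5 : S.card ≤ 2 := by
    calc S.card ≤ _ := card_le_card h1
      _ ≤ ∑ y ∈ H.erase z, (S.filter (fun A => y ∈ A)).card := card_biUnion_le
      _ ≤ ∑ _y ∈ H.erase z, 1 := sum_le_sum h2
      _ = 2 := by simp [card_erase_of_mem hz, hH]
  omega

/-- Five pairwise intersecting lines which are not concurrent cover at most seven points. -/
theorem five_lines {s : Finset (Finset V)} (h3 : ∀ A ∈ s, A.card = 3)
    (hlin : ∀ A ∈ s, ∀ B ∈ s, A ≠ B → (A ∩ B).card ≤ 1)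
    (hint : ∀ A ∈ s, ∀ B ∈ s, (A ∩ B).Nonempty) (hs : s.card = 5)
    (hdeg : ∀ x, (s.filter (fun A => x ∈ A)).card ≤ 4) :
    (s.biUnion id).card ≤ 7 := by
  obtain ⟨G, hG⟩ : s.Nonempty := card_pos.1 (by omega)
  -- a point of degree three
  obtain ⟨x, hxG, hx2⟩ : ∃ x ∈ G, 2 ≤ ((s.erase G).filter (fun A => x ∈ A)).card := by
    by_contra hcon
    push Not at hcon
    have h1 : s.erase G ⊆ G.biUnion (fun y => (s.erase G).filter (fun A => y ∈ A)) := by
      intro A hA
      obtain ⟨y, hy⟩ := hint A (mem_of_mem_erase hA) G hG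
      rw [mem_inter] at hy
      exact mem_biUnion.2 ⟨y, hy.2, mem_filter.2 ⟨hA, hy.1⟩⟩
    have h2 : (s.erase G).card ≤ 3 := by
      calc (s.erase G).card ≤ _ := card_le_card h1
        _ ≤ ∑ y ∈ G, ((s.erase G).filter (fun A => y ∈ A)).card := card_biUnion_le
        _ ≤ ∑ _y ∈ G, 1 := sum_le_sum (fun y hy => by have := hcon y hy; omega)
        _ = 3 := by simp [h3 G hG]
    rw [card_erase_of_mem hG] at h2
    omega
  set S := s.filter (fun A => x ∈ A) with hSdef
  have hSsub : S ⊆ s := filter_subset _ _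
  have hxS : ∀ A ∈ S, x ∈ A := fun A hA => (mem_filter.1 hA).2
  have hlS : ∀ A ∈ S, ∀ B ∈ S, A ≠ B → (A ∩ B).card ≤ 1 :=
    fun A hA B hB => hlin A (hSsub hA) B (hSsub hB)
  have hS3 : 3 ≤ S.card := by
    have h1 : S.erase G = (s.erase G).filter (fun A => x ∈ A) := by
      ext A
      simp only [hSdef, mem_erase, mem_filter]
      tauto
    have h2 : G ∈ S := mem_filter.2 ⟨hG, hxG⟩
    have h4 := card_erase_of_mem h2
    rw [h1] at h4
    omega
  have hS4 : S.card ≤ 3 := by
    by_contra hcon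
    have h1 : S.card = 4 := by
      have h0 : S.card ≤ 4 := hdeg x
      omega
    have h2 : (s \ S).Nonempty := by
      rw [← card_pos, card_sdiff_of_subset hSsub]
      omega
    obtain ⟨H, hH⟩ := h2
    rw [mem_sdiff] at hH
    have h4 : x ∉ H := fun h => hH.2 (mem_filter.2 ⟨hH.1, h⟩)
    have h5 := star_meet hxS hlS (h3 H hH.1) h4
    rw [filter_true_of_mem (fun A hA => hint A (hSsub hA) H hH.1)] at h5
    omega
  have hcov : s.biUnion id ⊆ S.biUnion id := by
    intro z hz
    obtain ⟨H, hH, hzH⟩ := mem_biUnion.1 hz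
    by_cases hxH : x ∈ H
    · exact mem_biUnion.2 ⟨H, mem_filter.2 ⟨hH, hxH⟩, hzH⟩
    · exact star_cover hxS hlS (h3 H hH) hxH hS3 (fun A hA => hint A (hSsub hA) H hH) hzH
  have hcard : S.biUnion id ⊆ insert x (S.biUnion (fun A => A.erase x)) := by
    intro z hz
    obtain ⟨H, hH, hzH⟩ := mem_biUnion.1 hz
    by_cases hzx : z = x
    · exact mem_insert.2 (Or.inl hzx)
    · exact mem_insert.2 (Or.inr (mem_biUnion.2 ⟨H, hH, mem_erase.2 ⟨hzx, hzH⟩⟩))
  calc (s.biUnion id).card ≤ _ := card_le_card (hcov.trans hcard)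
    _ ≤ (S.biUnion (fun A => A.erase x)).card + 1 := card_insert_le _ _
    _ ≤ (∑ A ∈ S, (A.erase x).card) + 1 := by gcongr; exact card_biUnion_le
    _ = (∑ _A ∈ S, 2) + 1 := by
        congr 1
        apply sum_congr rfl
        intro A hA
        rw [card_erase_of_mem (hxS A hA), h3 A (hSsub hA)]
    _ ≤ 7 := by simp; omega

/-- number of ordered pairs of distinct intersecting lines -/
def ip (F : Finset (Finset V)) : ℕ :=
  ∑ A ∈ F, (F.filter (fun B => B ≠ A ∧ (B ∩ A).Nonempty)).card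

/-- Turan's theorem for the intersection graph. -/
theorem ip_turan (F : Finset (Finset V))
    (hcf : ∀ s ⊆ F, s.card = 5 → ∃ A ∈ s, ∃ B ∈ s, A ≠ B ∧ ¬ (A ∩ B).Nonempty) :
    4 * ip F ≤ 3 * F.card ^ 2 := by
  classical
  let G : SimpleGraph F :=
    { Adj := fun A B => A ≠ B ∧ ((B : Finset V) ∩ A).Nonempty
      symm := ⟨fun A B h => ⟨h.1.symm, by rw [inter_comm]; exact h.2⟩⟩
      loopless := ⟨fun A h => h.1 rfl⟩ }
  have hG : G.CliqueFree 5 := by
    intro s hs
    obtain ⟨A, hA, B, hB, hne, hn⟩ := hcf (s.map (Function.Embedding.subtype _))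
      (by
        intro A hA
        obtain ⟨B, _, rfl⟩ := mem_map.1 hA
        exact B.2)
      (by rw [card_map]; exact hs.card_eq)
    obtain ⟨A', hA', rfl⟩ := mem_map.1 hA
    obtain ⟨B', hB', rfl⟩ := mem_map.1 hB
    have h1 : A' ≠ B' := fun h => hne (by rw [h])
    have h2 := hs.isClique hB' hA' h1.symm
    exact hn h2.2
  have h1 := hG.card_edgeFinset_le
  have h2 : ip F = 2 * G.edgeFinset.card := by
    rw [← G.sum_degrees_eq_twice_card_edges, ip, ← sum_coe_sort F]
    apply sum_congr rfl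
    intro A _
    rw [← SimpleGraph.card_neighborFinset_eq_degree]
    rw [← card_map (Function.Embedding.subtype _)]
    congr 1
    ext B
    simp only [mem_filter, mem_map, SimpleGraph.mem_neighborFinset, Function.Embedding.coe_subtype,
      Subtype.exists, exists_and_right, exists_eq_right]
    constructor
    · rintro ⟨hB, hne, hn⟩
      exact ⟨hB, fun h => hne (by rw [h]), hn⟩
    · rintro ⟨hB, hne, hn⟩
      exact ⟨hB, fun h => hne (Subtype.ext h.symm), hn⟩
  have h3 : Fintype.card F = F.card := Fintype.card_coe F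
  simp only [h3] at h1
  have h4 : F.card % 4 < 4 := Nat.mod_lt _ (by norm_num)
  set n := F.card
  have h5 : n % 4 ≤ n := Nat.mod_le _ _
  have h6 : (n ^ 2 - (n % 4) ^ 2) * (4 - 1) / (2 * 4) * 8 ≤ (n ^ 2 - (n % 4) ^ 2) * 3 :=
    Nat.div_mul_le_self _ _
  have h7 : (n % 4) ^ 2 ≤ n ^ 2 := Nat.pow_le_pow_left h5 2
  rw [h2]
  interval_cases h8 : n % 4 <;> simp [Nat.choose] at h1 h6 h7 ⊢ <;> omega

theorem ip_le (F : Finset (Finset V)) : ip F ≤ F.card * (F.card - 1) := by
  rw [ip]
  calc _ ≤ ∑ _A ∈ F, (F.card - 1) := by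
        apply sum_le_sum
        intro A hA
        rw [← card_erase_of_mem hA]
        apply card_le_card
        intro B hB
        rw [mem_filter] at hB
        exact mem_erase.2 ⟨hB.2.1, hB.1⟩
    _ = _ := by rw [sum_const, smul_eq_mul]

theorem cross_comm (S R : Finset (Finset V)) :
    ∑ A ∈ S, (R.filter (fun B => (B ∩ A).Nonempty)).card
      = ∑ B ∈ R, (S.filter (fun A => (A ∩ B).Nonempty)).card := by
  simp only [card_filter]
  rw [sum_comm]
  apply sum_congr rfl
  intro B _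
  apply sum_congr rfl
  intro A _
  rw [inter_comm]

/-- lines meeting `A` split into those through `v` and the others -/
theorem ip_split (F : Finset (Finset V)) (v : V) (h3 : ∀ A ∈ F, A.card = 3)
    (hlin : ∀ A ∈ F, ∀ B ∈ F, A ≠ B → (A ∩ B).card ≤ 1) :
    ip F ≤ (F.filter (fun A => v ∈ A)).card * ((F.filter (fun A => v ∈ A)).card - 1)
      + 6 * (F.filter (fun A => v ∉ A)).card + ip (F.filter (fun A => v ∉ A)) := by
  set S := F.filter (fun A => v ∈ A) with hS
  set R := F.filter (fun A => v ∉ A) with hR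
  have hSF : S ⊆ F := filter_subset _ _
  have hRF : R ⊆ F := filter_subset _ _
  have hd : Disjoint S R := disjoint_filter_filter_not F F (fun A => v ∈ A)
  have hu : F = S ∪ R := (filter_union_filter_not_eq (fun A => v ∈ A) F).symm
  have hsplit : ∀ A, (F.filter (fun B => B ≠ A ∧ (B ∩ A).Nonempty)).card
      = (S.filter (fun B => B ≠ A ∧ (B ∩ A).Nonempty)).card
        + (R.filter (fun B => B ≠ A ∧ (B ∩ A).Nonempty)).card := by
    intro A
    conv_lhs => rw [hu, filter_union]
    exact card_union_of_disjoint (disjoint_filter_filter hd)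
  have hcross : ∑ A ∈ R, (S.filter (fun B => (B ∩ A).Nonempty)).card ≤ 3 * R.card := by
    calc _ ≤ ∑ _A ∈ R, 3 := by
          apply sum_le_sum
          intro A hA
          exact star_meet (x := v) (fun B hB => (mem_filter.1 hB).2)
            (fun B hB C hC => hlin B (hSF hB) C (hSF hC)) (h3 A (hRF hA)) (mem_filter.1 hA).2
      _ = _ := by rw [sum_const, smul_eq_mul, mul_comm]
  have e1 : ip F = (∑ A ∈ S, (S.filter (fun B => B ≠ A ∧ (B ∩ A).Nonempty)).card
        + ∑ A ∈ S, (R.filter (fun B => B ≠ A ∧ (B ∩ A).Nonempty)).card)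
      + (∑ A ∈ R, (S.filter (fun B => B ≠ A ∧ (B ∩ A).Nonempty)).card
        + ∑ A ∈ R, (R.filter (fun B => B ≠ A ∧ (B ∩ A).Nonempty)).card) := by
    rw [← sum_add_distrib, ← sum_add_distrib, ip]
    conv_lhs => rw [hu, sum_union hd]
    congr 1 <;> exact sum_congr rfl (fun A _ => by rw [← hu]; exact hsplit A)
  have e2 : ∑ A ∈ S, (S.filter (fun B => B ≠ A ∧ (B ∩ A).Nonempty)).card ≤ S.card * (S.card - 1) :=
    ip_le S
  have e3 : ∑ A ∈ R, (S.filter (fun B => B ≠ A ∧ (B ∩ A).Nonempty)).card ≤ 3 * R.card := by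
    refine le_trans (sum_le_sum fun A _ => card_le_card ?_) hcross
    intro B hB
    rw [mem_filter] at hB ⊢
    exact ⟨hB.1, hB.2.2⟩
  have e4 : ∑ A ∈ S, (R.filter (fun B => B ≠ A ∧ (B ∩ A).Nonempty)).card ≤ 3 * R.card := by
    refine le_trans (sum_le_sum fun A _ => card_le_card ?_) ((cross_comm S R).trans_le hcross)
    intro B hB
    rw [mem_filter] at hB ⊢
    exact ⟨hB.1, hB.2.2⟩
  have e5 : ∑ A ∈ R, (R.filter (fun B => B ≠ A ∧ (B ∩ A).Nonempty)).card = ip R := rfl
  omega

/-- Either few intersecting pairs or a dominating star. -/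
theorem ip_or_hub (n : ℕ) : ∀ F : Finset (Finset V), F.card = n → (∀ A ∈ F, A.card = 3) →
    (∀ A ∈ F, ∀ B ∈ F, A ≠ B → (A ∩ B).card ≤ 1) →
    (∀ s ⊆ F, s.card = 5 → (∀ x, (s.filter (fun A => x ∈ A)).card ≤ 4) →
      ∃ A ∈ s, ∃ B ∈ s, A ≠ B ∧ ¬ (A ∩ B).Nonempty) →
    4 * ip F ≤ 3 * F.card ^ 2 ∨
      ∃ v, 5 ≤ (F.filter (fun A => v ∈ A)).card ∧ 5 * F.card < 6 * (F.filter (fun A => v ∈ A)).card := by
  induction n using Nat.strong_induction_on with
  | _ n ih =>
    intro F hF h3 hlin hK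
    by_cases hdeg : ∀ x, (F.filter (fun A => x ∈ A)).card ≤ 4
    · left
      apply ip_turan
      intro s hs hs5
      exact hK s hs hs5 (fun x => (card_le_card (filter_subset_filter _ hs)).trans (hdeg x))
    push Not at hdeg
    -- a point of maximal degree
    obtain ⟨v, hv, hmax⟩ : ∃ v, 5 ≤ (F.filter (fun A => v ∈ A)).card ∧
        ∀ x, (F.filter (fun A => x ∈ A)).card ≤ (F.filter (fun A => v ∈ A)).card := by
      obtain ⟨x0, hx0⟩ := hdeg
      have hx0' : x0 ∈ F.biUnion id := by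
        obtain ⟨A, hA⟩ : (F.filter (fun A => x0 ∈ A)).Nonempty := card_pos.1 (by omega)
        rw [mem_filter] at hA
        exact mem_biUnion.2 ⟨A, hA.1, hA.2⟩
      obtain ⟨v, hv, hm⟩ := exists_max_image (F.biUnion id)
        (fun x => (F.filter (fun A => x ∈ A)).card) ⟨x0, hx0'⟩
      refine ⟨v, (Nat.succ_le_of_lt hx0).trans (hm x0 hx0'), fun x => ?_⟩
      by_cases hx : x ∈ F.biUnion id
      · exact hm x hx
      · have : F.filter (fun A => x ∈ A) = ∅ := by
          rw [filter_eq_empty_iff]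
          intro A hA hxA
          exact hx (mem_biUnion.2 ⟨A, hA, hxA⟩)
        rw [this]
        simp
    by_cases hdom : 5 * F.card < 6 * (F.filter (fun A => v ∈ A)).card
    · exact Or.inr ⟨v, hv, hdom⟩
    left
    have hsp := ip_split F v h3 hlin
    set d := (F.filter (fun A => v ∈ A)).card with hd
    set R := F.filter (fun A => v ∉ A) with hR
    have hRF : R ⊆ F := filter_subset _ _
    have hcard : d + R.card = F.card := card_filter_add_card_filter_not (fun A => v ∈ A)
    have hrec := ih R.card (by omega) R rfl (fun A hA => h3 A (hRF hA))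
      (fun A hA B hB => hlin A (hRF hA) B (hRF hB)) (fun s hs => hK s (hs.trans hRF))
    obtain ⟨e, he⟩ : ∃ e, d = e + 1 := ⟨d - 1, by omega⟩
    rcases hrec with hrec | ⟨w, hw5, hwd⟩
    · rw [← hcard]
      rw [he] at hsp hv hdom hcard ⊢
      rw [← hcard] at hdom
      simp only [Nat.add_sub_cancel] at hsp
      have h7 : e + 1 ≤ 5 * R.card := by omega
      nlinarith [Nat.mul_le_mul (show 3 ≤ e - 1 + 0 by omega) (le_refl 1), mul_le_mul h7 hv (by omega) (by omega)]
    · have hwle : (R.filter (fun A => w ∈ A)).card ≤ d :=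
        (card_le_card (filter_subset_filter _ hRF)).trans (hmax w)
      have hwR : (R.filter (fun A => w ∈ A)).card ≤ R.card := card_le_card (filter_subset _ _)
      have htriv := ip_le R
      obtain ⟨r, hr⟩ : ∃ r, R.card = r + 1 := ⟨R.card - 1, by omega⟩
      rw [← hcard]
      rw [he] at hsp hv hdom hcard hwle ⊢
      rw [hr] at hsp htriv hcard hwd hwR ⊢
      rw [← hcard] at hdom
      simp only [Nat.add_sub_cancel] at hsp htriv
      have h7 : e ≤ 5 * r + 4 := by omega
      have h8 : 4 ≤ r := by omega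
      have h9 : 5 * r < 6 * e + 1 := by omega
      have h10 : 4 * ((e + 1) * e) + 24 * (r + 1) + 4 * ((r + 1) * r) ≤ 3 * (e + 1 + (r + 1)) ^ 2 := by
        zify at h7 h8 h9 hv ⊢
        nlinarith [mul_nonneg (show (0 : ℤ) ≤ 5 * r + 4 - e by linarith)
          (show (0 : ℤ) ≤ 6 * e - 5 * r by linarith),
          mul_nonneg (show (0 : ℤ) ≤ e - 4 by linarith) (show (0 : ℤ) ≤ r by positivity),
          mul_nonneg (show (0 : ℤ) ≤ r - 4 by linarith) (show (0 : ℤ) ≤ r by positivity)]
      omega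

end Pool.Agent.MPc82047h80
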